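import Pool.Agent.Helper21.W4.St5

set_option autoImplicit false

namespace Pool.Agent.Helper42.W4

open Pool.Agent.Helper21.W4 Finset

theorem hTs2 : StTs2 := by
  intro G _ D g1 g2 g3 hT c1 c2 c3 hc1 hc2 hc3 hrel s hs B
  classical
  have hanti : ∀ p p', p ≤ p' → s p' ≤ s p := by
    intro p p' h
    by_contra hc
    push Not at hc
    have h1 := (hs p' (s p)).1 hc
    have h2 := hT.down _ _ _ p (s p) 0 h1 h le_rfl le_rfl
    exact lt_irrefl _ ((hs p (s p)).2 h2)
  have hne : ∀ p, c1 ≤ p → s p < s (p - 1) → c2 ≤ s p →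
      ∃ u, D 0 0 u ∧ u • g3 = p • g1 + s p • g2 := by
    intro p hp hlt hq
    have hnot : ¬ D p (s p) 0 := fun h => lt_irrefl _ ((hs p (s p)).2 h)
    have hDl : D (p - 1) (s p) 0 := (hs (p - 1) (s p)).1 hlt
    have hDd : D p (s p - 1) 0 := (hs p (s p - 1)).1 (by omega)
    obtain ⟨q, hqq⟩ : ∃ q, q = s p := ⟨_, rfl⟩
    rw [← hqq] at hq hnot hDl hDd ⊢
    obtain ⟨p', q', r', hD', hv⟩ := hT.nf p q 0
    have hp0 : p' = 0 := by
      by_contra hne
      obtain ⟨a, ha⟩ : ∃ a, p = a + 1 := ⟨p - 1, by omega⟩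
      obtain ⟨a', ha'⟩ : ∃ a', p' = a' + 1 := ⟨p' - 1, by omega⟩
      subst ha'
      have e : a' • g1 + q' • g2 + r' • g3 = a • g1 + q • g2 + 0 • g3 := by
        rw [ha, succ_nsmul, succ_nsmul] at hv
        have h2 : a' • g1 + q' • g2 + r' • g3 + g1 = a • g1 + q • g2 + 0 • g3 + g1 := by
          have hL : a' • g1 + q' • g2 + r' • g3 + g1 = (a' • g1 + g1) + q' • g2 + r' • g3 := by abel
          have hR : a • g1 + q • g2 + 0 • g3 + g1 = (a • g1 + g1) + q • g2 + 0 • g3 := by abel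
          rw [hL, hR, hv]
        exact add_right_cancel h2
      have h3 := hT.inj a' q' r' a q 0 (hT.down _ _ _ _ _ _ hD' (by omega) le_rfl le_rfl)
        (by rw [ha] at hDl; exact hDl) e
      apply hnot
      rw [ha]
      obtain ⟨e1, e2, e3⟩ := h3
      rw [e1, e2, e3] at hD'
      exact hD'
    have hq0 : q' = 0 := by
      by_contra hne
      obtain ⟨b, hb⟩ : ∃ b, q = b + 1 := ⟨q - 1, by omega⟩
      obtain ⟨b', hb'⟩ : ∃ b', q' = b' + 1 := ⟨q' - 1, by omega⟩
      rw [hb'] at hv hD'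
      have e : p' • g1 + b' • g2 + r' • g3 = p • g1 + b • g2 + 0 • g3 := by
        rw [hb, succ_nsmul, succ_nsmul] at hv
        have h2 : p' • g1 + b' • g2 + r' • g3 + g2 = p • g1 + b • g2 + 0 • g3 + g2 := by
          have hL : p' • g1 + b' • g2 + r' • g3 + g2 = p' • g1 + (b' • g2 + g2) + r' • g3 := by abel
          have hR : p • g1 + b • g2 + 0 • g3 + g2 = p • g1 + (b • g2 + g2) + 0 • g3 := by abel
          rw [hL, hR, hv]
        exact add_right_cancel h2
      have h3 := hT.inj p' b' r' p b 0 (hT.down _ _ _ _ _ _ hD' le_rfl (by omega) le_rfl)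
        (by rw [hb] at hDd; exact hDd) e
      apply hnot
      rw [hb]
      obtain ⟨e1, e2, e3⟩ := h3
      rw [e1, e2, e3] at hD'
      exact hD'
    subst hp0
    rw [hq0] at hv hD'
    refine ⟨r', hD', ?_⟩
    simpa using hv
  choose! u hu using hne
  -- the largest point on the third axis
  obtain ⟨B', hB'⟩ := hT.fin
  have h00 : D 0 0 0 := hT.down _ _ _ _ _ _ hT.one.1 (Nat.zero_le _) le_rfl le_rfl
  obtain ⟨A, hA, hAm⟩ : ∃ A, D 0 0 A ∧ ∀ r, D 0 0 r → r ≤ A := by
    refine ⟨Nat.findGreatest (fun r => D 0 0 r) B', ?_, ?_⟩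
    · exact Nat.findGreatest_spec (P := fun r => D 0 0 r) (Nat.zero_le _) h00
    · intro r hr
      exact Nat.le_findGreatest (by have := (hB' 0 0 r hr).2.2; omega) hr
  have hlow : ∀ p, c1 ≤ p → s p < s (p - 1) → c2 ≤ s p → A < u p + c3 := by
    intro p hp hlt hq
    by_contra hcon
    push Not at hcon
    obtain ⟨hDu, hue⟩ := hu p hp hlt hq
    have hDl : D (p - 1) (s p) 0 := (hs (p - 1) (s p)).1 hlt
    have h1 : D 0 0 (u p + c3) := hT.down _ _ _ _ _ _ hA le_rfl le_rfl hcon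
    have h2 : D (p - c1) (s p - c2) 0 := hT.down _ _ _ _ _ _ hDl (by omega) (by omega) le_rfl
    have e : 0 • g1 + 0 • g2 + (u p + c3) • g3 = (p - c1) • g1 + (s p - c2) • g2 + 0 • g3 := by
      have e1 : p • g1 = (p - c1) • g1 + c1 • g1 := by
        rw [← add_nsmul]; congr 1; omega
      have e2 : s p • g2 = (s p - c2) • g2 + c2 • g2 := by
        rw [← add_nsmul]; congr 1; omega
      rw [e1, e2] at hue
      rw [add_nsmul, hue, zero_nsmul, zero_nsmul, zero_nsmul]
      have : (p - c1) • g1 + c1 • g1 + ((s p - c2) • g2 + c2 • g2) + c3 • g3 =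
          (p - c1) • g1 + (s p - c2) • g2 + (c1 • g1 + c2 • g2 + c3 • g3) := by abel
      rw [zero_add, zero_add, this, hrel]
    have := (hT.inj _ _ _ _ _ _ h1 h2 e).2.2
    omega
  have hinj : ∀ p p', c1 ≤ p → s p < s (p - 1) → c2 ≤ s p → c1 ≤ p' → s p' < s (p' - 1) →
      c2 ≤ s p' → p < p' → u p ≠ u p' := by
    intro p p' hp hlt hq hp' hlt' hq' hpp heq
    obtain ⟨-, hue⟩ := hu p hp hlt hq
    obtain ⟨-, hue'⟩ := hu p' hp' hlt' hq'
    rw [← heq, hue] at hue'
    have hss : s p' ≤ s p := hanti _ _ hpp.le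
    have hDl : D (p - 1) (s p) 0 := (hs (p - 1) (s p)).1 hlt
    have hDl' : D (p' - 1) (s p') 0 := (hs (p' - 1) (s p')).1 hlt'
    have h1 : D 0 (s p - s p') 0 := hT.down _ _ _ _ _ _ hDl (Nat.zero_le _) (by omega) le_rfl
    have h2 : D (p' - p) 0 0 := hT.down _ _ _ _ _ _ hDl' (by omega) (Nat.zero_le _) le_rfl
    have e : 0 • g1 + (s p - s p') • g2 + 0 • g3 = (p' - p) • g1 + 0 • g2 + 0 • g3 := by
      have e1 : p' • g1 = (p' - p) • g1 + p • g1 := by
        rw [← add_nsmul]; congr 1; omega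
      have e2 : s p • g2 = (s p - s p') • g2 + s p' • g2 := by
        rw [← add_nsmul]; congr 1; omega
      rw [e1, e2] at hue'
      have h3 : (s p - s p') • g2 + (p • g1 + s p' • g2) = (p' - p) • g1 + (p • g1 + s p' • g2) := by
        have hL : (s p - s p') • g2 + (p • g1 + s p' • g2) =
          p • g1 + ((s p - s p') • g2 + s p' • g2) := by abel
        rw [hL, hue']
        abel
      have h4 := add_right_cancel h3
      simp [h4]
    have := (hT.inj _ _ _ _ _ _ h1 h2 e).1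
    omega
  unfold oc
  have hcard : ((range B).filter (fun p => c1 ≤ p ∧ s p < s (p - 1) ∧ c2 ≤ s p)).card ≤
      (Finset.Icc (A + 1 - c3) A).card := by
    apply Finset.card_le_card_of_injOn u
    · intro p hp
      have hp2 : p ∈ (range B).filter (fun p => c1 ≤ p ∧ s p < s (p - 1) ∧ c2 ≤ s p) := hp
      obtain ⟨-, a, b, c⟩ := Finset.mem_filter.1 hp2
      have h1 := hlow p a b c
      have h2 := hAm _ (hu p a b c).1
      exact Finset.mem_coe.2 (Finset.mem_Icc.2 ⟨by omega, h2⟩)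
    · intro p hp p' hp' heq
      have hp2 : p ∈ (range B).filter (fun p => c1 ≤ p ∧ s p < s (p - 1) ∧ c2 ≤ s p) := hp
      have hp2' : p' ∈ (range B).filter (fun p => c1 ≤ p ∧ s p < s (p - 1) ∧ c2 ≤ s p) := hp'
      obtain ⟨-, a, b, c⟩ := Finset.mem_filter.1 hp2
      obtain ⟨-, a', b', c'⟩ := Finset.mem_filter.1 hp2'
      rcases lt_trichotomy p p' with h | h | h
      · exact absurd heq (hinj _ _ a b c a' b' c' h)
      · exact h
      · exact absurd heq.symm (hinj _ _ a' b' c' a b c h)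
  refine hcard.trans ?_
  rw [Nat.card_Icc]
  omega

end Pool.Agent.Helper42.W4
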