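import Pool.Agent.Helper21.W4.St5

set_option autoImplicit false

namespace Pool.Agent.Helper42.W4

open Pool.Agent.Helper21.W4 Finset
open Pool.Agent.Helper67.WI (cond mult gens wN nfSet IsNF psi)

/-- a triple as a vector -/
def toV (x : ℕ × ℕ × ℕ) : Fin 3 → ℕ := ![x.1, x.2.1, x.2.2]

theorem toV_inj : Function.Injective toV := by
  rintro ⟨p, q, r⟩ ⟨p', q', r'⟩ h
  have h0 : p = p' := congrFun h 0
  have h1 : q = q' := congrFun h 1
  have h2 : r = r' := congrFun h 2
  rw [h0, h1, h2]

theorem wN3 (a : Fin 3 → ℕ) (p q r : ℕ) : wN a ![p, q, r] = a 0 * p + a 1 * q + a 2 * r := by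
  unfold Pool.Agent.Helper67.WI.wN
  rw [Fin.sum_univ_three]
  rfl

theorem card_pts (B : ℕ) (h1 : ℕ → ℕ → ℕ) (hb : ∀ p q r, p < h1 q r → p + 1 < B ∧ q + 1 < B ∧ r + 1 < B) :
    (pts B h1).card = vol B h1 := by
  unfold pts vol
  rw [Finset.card_filter, Finset.sum_product, Finset.sum_comm, Finset.sum_product]
  refine Finset.sum_congr rfl fun q _ => Finset.sum_congr rfl fun r _ => ?_
  have hle : h1 q r ≤ B := by
    rcases Nat.eq_zero_or_pos (h1 q r) with h | h
    · omega
    · have := (hb (h1 q r - 1) q r (by omega)).1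
      omega
  rw [← Finset.card_filter]
  have : (range B).filter (fun p => p < h1 q r) = range (h1 q r) := by
    ext p
    rw [mem_filter, mem_range, mem_range]
    omega
  rw [this, card_range]

theorem hWsg : StWsg := by
  intro hVol S a hS hc hgen B h1 h2 h3 hP hiff
  classical
  have hm := Pool.Agent.Helper67.WI.mult_pos hS
  have hP0 : PP0 B h1 h2 h3 := ⟨hP.e12, hP.e13, hP.bd⟩
  have hmem : ∀ x, x ∈ pts B h1 ↔ IsNF S a (toV x) := by
    rintro ⟨p, q, r⟩
    unfold pts
    rw [mem_filter, mem_product, mem_product, mem_range, mem_range, mem_range]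
    constructor
    · rintro ⟨-, h⟩
      exact (hiff p q r).1 h
    · intro h
      have h' := (hiff p q r).2 h
      have hb := hP.bd p q r h'
      exact ⟨⟨by simp only; omega, by simp only; omega, by simp only; omega⟩, h'⟩
  have himg : (pts B h1).image toV = nfSet S a := by
    ext y
    rw [mem_image, Pool.Agent.Helper67.WI.mem_nfSet hS hc hgen]
    constructor
    · rintro ⟨x, hx, rfl⟩
      exact (hmem x).1 hx
    · intro hy
      have e : toV (y 0, y 1, y 2) = y := by
        funext i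
        fin_cases i <;> rfl
      refine ⟨(y 0, y 1, y 2), (hmem _).2 (by rw [e]; exact hy), e⟩
  have hinjOn : Set.InjOn toV (pts B h1 : Set (ℕ × ℕ × ℕ)) := fun x _ y _ h => toV_inj h
  refine ⟨?_, ?_, ?_, ?_⟩
  · rw [← (hVol B h1 h2 h3 hP0).1, ← card_pts B h1 hP.bd, ← card_image_of_injOn hinjOn, himg,
      Pool.Agent.Helper67.WI.card_nfSet hS hc hgen]
  · rw [← himg, sum_image hinjOn]
    rfl
  · intro x hx y hy h
    rw [mem_coe, hmem] at hx hy
    apply toV_inj
    refine Pool.Agent.Helper67.WI.psi_inj hS hx hy ?_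
    rw [Pool.Agent.Helper67.WI.psi_apply, Pool.Agent.Helper67.WI.psi_apply, ZMod.natCast_eq_natCast_iff]
    have h1 := Pool.Agent.Helper67.WI.Ap_le hS hc hx.1
    have h2 := Pool.Agent.Helper67.WI.Ap_le hS hc hy.1
    have h3 : cond S + mult S - 1 - wN a (toV x) ≡ cond S + mult S - 1 - wN a (toV y) [MOD mult S] := h
    have h4 : (cond S + mult S - 1 - wN a (toV x)) + (wN a (toV x) + wN a (toV y)) ≡
        (cond S + mult S - 1 - wN a (toV y)) + (wN a (toV x) + wN a (toV y)) [MOD mult S] :=
      Nat.ModEq.add_right _ h3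
    have h5 : (cond S + mult S - 1 - wN a (toV x)) + (wN a (toV x) + wN a (toV y)) =
        (cond S + mult S - 1) + wN a (toV y) := by omega
    have h6 : (cond S + mult S - 1 - wN a (toV y)) + (wN a (toV x) + wN a (toV y)) =
        (cond S + mult S - 1) + wN a (toV x) := by omega
    rw [h5, h6] at h4
    exact (Nat.ModEq.add_left_cancel' _ h4).symm
  · rintro ⟨p, q, r⟩ hx hn
    have key : ∀ p' q' r', IsNF S a ![p', q', r'] → ∀ i : Fin 3,
        wN a ![p', q', r'] = wN a ![p, q, r] + a i →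
        mult S ≤ cond S + mult S - 1 - wN a ![p, q, r] := by
      intro p' q' r' hN i he
      have h7 := Pool.Agent.Helper67.WI.Ap_le hS hc hN.1
      have h8 := Pool.Agent.Helper67.WI.a_gt hgen i
      omega
    unfold nonmax at hn
    simp only at hn
    rcases hn with hn | hn | hn
    · exact key _ _ _ ((hiff _ _ _).1 hn) 0 (by rw [wN3, wN3]; ring)
    · exact key _ _ _ ((hiff _ _ _).1 ((hP.e12 _ _ _).2 hn)) 1 (by rw [wN3, wN3]; ring)
    · exact key _ _ _ ((hiff _ _ _).1 ((hP.e13 _ _ _).2 hn)) 2 (by rw [wN3, wN3]; ring)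

end Pool.Agent.Helper42.W4
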